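import Mathlib
import Pool.Agent.Helper34K9.Cor.Fin

set_option autoImplicit false

/-!
# The corona constants of the unit balls grow at least like `exp (c n ^ (1 / 4))`

For every `0 < δ < 1` there is `c > 0` such that for all large `n` there are finitely many
holomorphic functions `f_j` on the unit ball of `ℂⁿ` with `δ² < ∑ |f_j|² ≤ 1` such that every
holomorphic solution `h` of `∑ f_j h_j = 1` on the ball exceeds `exp (c n ^ (1 / 4))` somewhere.

Idea of the proof. Let `k² ≤ n` and regard `k²` of the coordinates as a `k × k` matrix `Z`. The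
normalized determinant `g = k ^ (k / 2) det Z` has supremum one on the ball, attained at the unitary
matrices divided by `√k`. The data are `cos θ(g)` and `sin θ(g) f_β`, where `θ` is a conformal map of
the disc onto a thin strip and the `f_β` are the coefficients of `Z^{⊗ m}`, `m ≤ ε k`, along an
orthonormal basis of the space spanned by the tensors which are symmetric in some `a` of the `m`
positions. Where `|g|` is not small the singular values of `Z` are nearly equal, and `∑ |f_β|²` is at
least the probability that a random word of length `m` in `k` letters has a weakly increasing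
subsequence of length `a`; this is close to one for some `a ≥ c √k`. The average of `conj (det U) ^ i F (r U)`
over the unitary group is a functional of norm one, equal to a constant times the Taylor coefficient
of a function of `g`, and it kills the ideal generated by the `f_β` as long as `i < a`. Since
`1 / cos θ` has a pole in the disc its Taylor coefficients of index `< a` are exponentially large
in `a`.
-/

open Set

namespace Pool.Agent.Results.MP_ca0fc2_an.GrowthInTheDimension

/-- The open unit ball of `ℂⁿ` for the Euclidean norm. -/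
def Ball (n : ℕ) : Set (Fin n → ℂ) := {z | ∑ i, ‖z i‖ ^ 2 < 1}

/-- For every `0 < δ < 1` there are `c > 0` and `n₀` such that for every `n ≥ n₀` there are finitely
many holomorphic functions `f_j` on the unit ball of `ℂⁿ` with `δ² < ∑ |f_j|² ≤ 1` for which every
holomorphic solution `(h_j)` of `∑ f_j h_j = 1` on the ball satisfies
`|h_j(z)| > exp (c n ^ (1 / 4))` for some `j` and some `z` in the ball. -/
theorem result (δ : ℝ) (hδ0 : 0 < δ) (hδ : δ < 1) :
    ∃ c : ℝ, 0 < c ∧ ∃ n₀ : ℕ, ∀ n ≥ n₀, ∃ (N : ℕ) (f : Fin N → (Fin n → ℂ) → ℂ),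
      (∀ j, DifferentiableOn ℂ (f j) (Ball n)) ∧
      (∀ z ∈ Ball n, ∑ j, ‖f j z‖ ^ 2 ≤ 1) ∧
      (∀ z ∈ Ball n, δ ^ 2 < ∑ j, ‖f j z‖ ^ 2) ∧
      ∀ h : Fin N → (Fin n → ℂ) → ℂ, (∀ j, DifferentiableOn ℂ (h j) (Ball n)) →
        (∀ z ∈ Ball n, ∑ j, f j z * h j z = 1) →
        ∃ j, ∃ z ∈ Ball n, Real.exp (c * (n : ℝ) ^ (1 / 4 : ℝ)) < ‖h j z‖ :=
  Pool.Agent.Helper34K9.Cor.main δ hδ0 hδ

end Pool.Agent.Results.MP_ca0fc2_an.GrowthInTheDimension
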