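import Mathlib
import Pool.Agent.Helper59K9.Cor.SubAlg

/-!
# The corona problem on the ball is local with respect to functions of several geodesics

`B` is the unit ball of `ℂ^m`, `p` a unit vector, `mv p a` (`|a| < 1`) the automorphisms of `B` which
translate the complex geodesic `B ∩ ℂp`. A function `v` is scaled continuous along `p`, with
modulus `r`, if the functions `v ∘ mv p a`, `|a| < 1`, are equicontinuous, with this modulus, at each
point `q` of the sphere which is orthogonal to `p`: near the boundary point `mv p a q` the function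
`v` changes slowly in the non-isotropic scale given by the distance of this point from the circle
`{e^{iθ} p}`, while near the geodesic `v` is arbitrary. Examples: `H(⟨p, z⟩ p + t (z - ⟨p, z⟩ p))` with
`t < 1` and any bounded holomorphic `H` (the modulus depends only on `t`), and `h(⟨p, z⟩)`.

`result`: let `F_1, …, F_N` be arbitrary corona data. Suppose that for every boundary point `ζ` there
are such functions `v_k`, `k < L(ζ)`, with given moduli, and arbitrary automorphisms `ψ_k` of the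
ball, such that the Bezout equation for `F_1, …, F_N` has, on each cell
`{|v_k(ψ_k(z)) - v_k(ψ_k(z₀))| < ε for all k}` near `ζ` and outside of the neighbourhoods of a fixed
hyperbolic radius of the geodesics `ψ_k⁻¹(B ∩ ℂ p_k)`, holomorphic solutions bounded by `Q(ζ)`. Then it
has solutions on the ball which are bounded by a constant which depends neither on the data nor on
the `v_k` nor on the automorphisms. The geodesics may be in any mutual position, no compatibility of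
the local solutions is required, and the data are arbitrary near the geodesics.

Consequences: `cells` (the same functions at all boundary points); `one_per_cell`: it is enough that in
each cell, away from the geodesics, all functions but one, which is arbitrary and may depend on the
cell, have small oscillation; `near_geodesic_functions`: uniform bounds for the data
`H_k(τ_k(ψ_k(z)))`, `τ_k(z) = ⟨p_k, z⟩ p_k + t_k (z - ⟨p_k, z⟩ p_k)`, `t_k < 1`, and one arbitrary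
function, with arbitrary automorphisms `ψ_k` and arbitrary bounded holomorphic `H_k`.

Let `𝒜` be the set of the bounded holomorphic functions on `B` which are uniformly
continuous with respect to finitely many functions `v ∘ ψ` at a time (`Subordinate`). `𝒜` is a uniformly
closed algebra, invariant under all automorphisms, and contains the ball algebra, the functions
`h(⟨p, z⟩)` and `H(⟨p, z⟩ p + t (z - ⟨p, z⟩ p))`, `t < 1` (`subordinate_algebra`). For
`f_1, …, f_N ∈ 𝒜` and `δ > 0` there is `C` such that for all automorphisms `ψ_1, …, ψ_N` of the ball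
and all `G` with `|G| ≤ 1` and `∑ |f_k ∘ ψ_k| + |G| ≥ δ` the corona data `f_1 ∘ ψ_1, …, f_N ∘ ψ_N, G`
have solutions bounded by `C` (`subordinate_corona`); and the corona problem for arbitrary data is
local with respect to `f_1 ∘ ψ_1, …, f_N ∘ ψ_N`, uniformly in the automorphisms
(`subordinate_cells`).

Proof. Suppose that uniform solvability fails for a family of data. Some character `χ` of the Banach
algebra of bounded families annihilates the `F_j`; it lies over a boundary point `ζ`. The functions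
`(u_k - χ(u_k)) / 2`, `u_k = v_k ∘ ψ_k`, and `(1 - ⟨ζ, z⟩) / 2` are added to the
data and the `u_k` are then removed one at a time: transport the geodesic of `u_1` to `B ∩ ℂ p_1`; slice
localisation gives a character over a point `q` of the sphere orthogonal to `p_1` for the family
enlarged by the translations `mv p_1 a`; since `u_1` is nearly constant near `q`, it can be replaced
by `(1 - ⟨q, z⟩) / 2`, that is by a function with affine fibres composed with automorphisms. When all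
`u_k` are replaced, the localisation theorem for functions with affine fibres of the starting library
gives uniform solutions, a contradiction. Automorphisms are linear fractional by Cartan's theorem,
so that the fibres remain affine.
-/

set_option autoImplicit false

open Metric Set

namespace Pool.Agent.Results.MP_ca0fc2_an.NearGeodesicCells

/-- `ℂ^m` with the Euclidean norm. -/
abbrev V (m : ℕ) := EuclideanSpace ℂ (Fin m)

/-- The automorphisms of the ball (`‖p‖ = 1`, `|a| < 1`) which translate the complex geodesic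
through `0` and `p`: `⟨p, mv p a z⟩ = (⟨p, z⟩ + a) / (1 + conj a ⟨p, z⟩)`. -/
noncomputable def mv {m : ℕ} (p : V m) (a : ℂ) (z : V m) : V m :=
  (1 / (1 + starRingEnd ℂ a * inner ℂ p z)) •
    (((inner ℂ p z : ℂ) + a) • p + ((√(1 - ‖a‖ ^ 2) : ℝ) : ℂ) • (z - (inner ℂ p z : ℂ) • p))

/-- `ψ` is an automorphism of the unit ball, with inverse `φ`. -/
def IsAut {m : ℕ} (ψ φ : V m → V m) : Prop :=
  DifferentiableOn ℂ ψ (ball 0 1) ∧ DifferentiableOn ℂ φ (ball 0 1) ∧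
    MapsTo ψ (ball 0 1) (ball 0 1) ∧ MapsTo φ (ball 0 1) (ball 0 1) ∧
    (∀ z ∈ ball (0 : V m) 1, φ (ψ z) = z) ∧ ∀ z ∈ ball (0 : V m) 1, ψ (φ z) = z

/-- holomorphic on the unit ball and bounded by `1` -/
def HolB {m : ℕ} (f : V m → ℂ) : Prop :=
  DifferentiableOn ℂ f (ball 0 1) ∧ ∀ z ∈ ball (0 : V m) 1, ‖f z‖ ≤ 1

/-- `f` is scaled continuous along the circle of `p`, with modulus `r`. -/
def ScaledContWith {m : ℕ} (p : V m) (r : V m → ℝ → ℝ) (f : V m → ℂ) : Prop :=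
  ∀ q : V m, ‖q‖ = 1 → (inner ℂ p q : ℂ) = 0 → ∀ ε : ℝ, 0 < ε →
    ∀ a ∈ ball (0 : ℂ) 1, ∀ z ∈ ball (0 : V m) 1, ∀ w ∈ ball (0 : V m) 1,
      ‖z - q‖ < r q ε → ‖w - q‖ < r q ε → ‖f (mv p a z) - f (mv p a w)‖ ≤ ε

/-- `z` is outside of a neighbourhood of the complex geodesic `B ∩ ℂp`: the pseudohyperbolic
distance `d` from `z` to the geodesic satisfies `1 - d² < s`. -/
def FarFrom {m : ℕ} (p : V m) (s : ℝ) (z : V m) : Prop :=
  1 - ‖z‖ ^ 2 < s * (1 - ‖(inner ℂ p z : ℂ)‖ ^ 2)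

/-- The equation `∑ F_j g_j = 1` has a solution with `g_j` holomorphic on `Ω` and bounded by `C`. -/
def Solvable {m N : ℕ} (Ω : Set (V m)) (F : Fin N → V m → ℂ) (C : ℝ) : Prop :=
  ∃ g : Fin N → V m → ℂ, (∀ j, DifferentiableOn ℂ (g j) Ω) ∧ (∀ j, ∀ z ∈ Ω, ‖g j z‖ ≤ C) ∧
    ∀ z ∈ Ω, ∑ j, F j z * g j z = 1

/-- `u = v ∘ ψ`, where `v` is bounded, holomorphic and scaled continuous along the circle of some
unit vector, and `ψ` is an automorphism. -/
def Generator {m : ℕ} (u : V m → ℂ) : Prop :=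
  ∃ (p : V m) (r : V m → ℝ → ℝ) (v : V m → ℂ) (ψ φ : V m → V m), ‖p‖ = 1 ∧
    (∀ q ε, 0 < ε → 0 < r q ε) ∧ DifferentiableOn ℂ v (ball 0 1) ∧
    (∃ M : ℝ, ∀ z ∈ ball (0 : V m) 1, ‖v z‖ ≤ M) ∧ ScaledContWith p r v ∧ IsAut ψ φ ∧
    ∀ z ∈ ball (0 : V m) 1, u z = v (ψ z)

/-- `f` is bounded, holomorphic, and for each `ε` there are finitely many generators such that `f`
changes by at most `ε` when the generators change little. -/
def Subordinate {m : ℕ} (f : V m → ℂ) : Prop :=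
  DifferentiableOn ℂ f (ball 0 1) ∧ (∃ M : ℝ, ∀ z ∈ ball (0 : V m) 1, ‖f z‖ ≤ M) ∧
    ∀ ε : ℝ, 0 < ε → ∃ (U : Finset (V m → ℂ)) (κ : ℝ), 0 < κ ∧ (∀ u ∈ U, Generator u) ∧
      ∀ z ∈ ball (0 : V m) 1, ∀ z' ∈ ball (0 : V m) 1, (∀ u ∈ U, ‖u z - u z'‖ < κ) →
        ‖f z - f z'‖ ≤ ε

/-! ### Translation -/

open Pool.Agent.Helper59K9.Cor (Gen Sbd)

theorem IsAut.aut {m : ℕ} {ψ φ : V m → V m} (h : IsAut ψ φ) : Pool.Agent.TH310.Cor.Aut ψ φ :=
  ⟨h.1, h.2.1, h.2.2.1, h.2.2.2.1, h.2.2.2.2.1, h.2.2.2.2.2⟩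

theorem isAut_of {m : ℕ} {ψ φ : V m → V m} (h : Pool.Agent.TH310.Cor.Aut ψ φ) : IsAut ψ φ :=
  ⟨h.d1, h.d2, h.m1, h.m2, h.i1, h.i2⟩

theorem gen_iff {m : ℕ} (u : V m → ℂ) : Generator u ↔ Gen u := by
  constructor
  · rintro ⟨p, r, v, ψ, φ, hp, hr, hv, hM, hs, hψ, hu⟩
    exact ⟨p, v, ψ, φ, hp, hv, hM, fun q hq hpq ε hε => ⟨r q ε, hr q ε hε,
      fun a ha z hz w hw hzq hwq => hs q hq hpq ε hε a ha z hz w hw hzq hwq⟩, hψ.aut, hu⟩
  · rintro ⟨p, v, ψ, φ, hp, hv, hM, hs, hψ, hu⟩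
    obtain ⟨r, hr, h1⟩ := Pool.Agent.Helper59K9.Cor.SC.exists_mod hs
    exact ⟨p, r, v, ψ, φ, hp, hr, hv, hM, h1, isAut_of hψ, hu⟩

theorem sub_iff {m : ℕ} (f : V m → ℂ) : Subordinate f ↔ Sbd f := by
  simp only [Subordinate, Sbd, gen_iff]

/-! ### Results -/

/-- **The corona problem is local with respect to functions of several geodesics.** -/
theorem result (m N : ℕ) (L : V m → ℕ) (p : ∀ ζ, Fin (L ζ) → V m)
    (hp : ∀ ζ k, ‖p ζ k‖ = 1) (r : ∀ ζ, Fin (L ζ) → V m → ℝ → ℝ)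
    (hr : ∀ ζ k q ε, 0 < ε → 0 < r ζ k q ε) (ρ ε s Q : V m → ℝ) (hρ : ∀ ζ, 0 < ρ ζ)
    (hε : ∀ ζ, 0 < ε ζ) (hs : ∀ ζ, 0 < s ζ) (δ : ℝ) (hδ : 0 < δ) :
    ∃ C : ℝ, ∀ F : Fin N → V m → ℂ, (∀ j, HolB (F j)) →
    (∀ z ∈ ball (0 : V m) 1, δ ≤ ∑ j, ‖F j z‖) →
    (∀ ζ : V m, ‖ζ‖ = 1 → ∃ (ψ φ : Fin (L ζ) → V m → V m) (v : Fin (L ζ) → V m → ℂ),
      (∀ k, IsAut (ψ k) (φ k)) ∧ (∀ k, HolB (v k) ∧ ScaledContWith (p ζ k) (r ζ k) (v k)) ∧
      ∀ z₀ ∈ ball (0 : V m) 1 ∩ ball ζ (ρ ζ),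
        Solvable {z | z ∈ ball (0 : V m) 1 ∩ ball ζ (ρ ζ) ∧
          (∀ k, ‖v k (ψ k z) - v k (ψ k z₀)‖ < ε ζ) ∧ ∀ k, FarFrom (p ζ k) (s ζ) (ψ k z)}
          F (Q ζ)) →
    Solvable (ball 0 1) F C := by
  obtain ⟨C, hC⟩ := Pool.Agent.Helper59K9.Cor.cell_near m N L p hp r hr ρ ε s Q hρ hε hs hδ
  refine ⟨C, fun F hF hlow h => hC F hF hlow fun ζ hζ => ?_⟩
  obtain ⟨ψ, φ, v, h1, h2, h3⟩ := h ζ hζ
  exact ⟨ψ, φ, v, fun k => (h1 k).aut, h2, h3⟩

/-- The same functions at all boundary points. -/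
theorem cells (m N L : ℕ) (p : Fin L → V m) (hp : ∀ k, ‖p k‖ = 1) (r : Fin L → V m → ℝ → ℝ)
    (hr : ∀ k q ε, 0 < ε → 0 < r k q ε) (δ ε s Q : ℝ) (hδ : 0 < δ) (hε : 0 < ε) (hs : 0 < s) :
    ∃ C : ℝ, ∀ (F : Fin N → V m → ℂ) (ψ φ : Fin L → V m → V m) (v : Fin L → V m → ℂ),
      (∀ j, HolB (F j)) → (∀ z ∈ ball (0 : V m) 1, δ ≤ ∑ j, ‖F j z‖) →
      (∀ k, IsAut (ψ k) (φ k)) → (∀ k, HolB (v k) ∧ ScaledContWith (p k) (r k) (v k)) →
      (∀ z₀ ∈ ball (0 : V m) 1, Solvable {z | z ∈ ball (0 : V m) 1 ∧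
        (∀ k, ‖v k (ψ k z) - v k (ψ k z₀)‖ < ε) ∧ ∀ k, FarFrom (p k) s (ψ k z)} F Q) →
      Solvable (ball 0 1) F C := by
  obtain ⟨C, hC⟩ := Pool.Agent.Helper59K9.Cor.cell_unif m N L p hp r hr Q hδ hε hs
  exact ⟨C, fun F ψ φ v hF hlow hψ hv h => hC F ψ φ v hF hlow (fun k => (hψ k).aut) hv h⟩

/-- Corona theorem for subordinate functions, each composed with its own automorphism, and one
arbitrary function. -/
theorem subordinate_corona (m N : ℕ) (f : Fin N → V m → ℂ) (hf : ∀ k, Subordinate (f k)) (δ : ℝ)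
    (hδ : 0 < δ) : ∃ C : ℝ, ∀ (ψ φ : Fin N → V m → V m) (G : V m → ℂ),
      (∀ k, IsAut (ψ k) (φ k)) → HolB G →
      (∀ z ∈ ball (0 : V m) 1, δ ≤ ∑ k, ‖f k (ψ k z)‖ + ‖G z‖) →
      ∃ (g : Fin N → V m → ℂ) (g₀ : V m → ℂ), (∀ k, DifferentiableOn ℂ (g k) (ball 0 1)) ∧
        DifferentiableOn ℂ g₀ (ball 0 1) ∧ (∀ k, ∀ z ∈ ball (0 : V m) 1, ‖g k z‖ ≤ C) ∧
        (∀ z ∈ ball (0 : V m) 1, ‖g₀ z‖ ≤ C) ∧
        ∀ z ∈ ball (0 : V m) 1, ∑ k, f k (ψ k z) * g k z + G z * g₀ z = 1 := by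
  obtain ⟨C, hC⟩ := Pool.Agent.Helper59K9.Cor.sub_corona m N f (fun k => (sub_iff _).1 (hf k)) hδ
  exact ⟨C, fun ψ φ G hψ hG h => hC ψ φ G (fun k => (hψ k).aut) hG h⟩

/-- The corona problem is local with respect to subordinate functions, uniformly in automorphisms. -/
theorem subordinate_cells (m M N : ℕ) (f : Fin N → V m → ℂ) (hf : ∀ k, Subordinate (f k))
    (ε Q : ℝ) (hε : 0 < ε) : ∃ C : ℝ, ∀ (F : Fin M → V m → ℂ) (ψ φ : Fin N → V m → V m),
      (∀ j, HolB (F j)) → (∀ k, IsAut (ψ k) (φ k)) →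
      (∀ z₀ ∈ ball (0 : V m) 1, Solvable {z | z ∈ ball (0 : V m) 1 ∧
        ∀ k, ‖f k (ψ k z) - f k (ψ k z₀)‖ < ε} F Q) →
      Solvable (ball 0 1) F C := by
  obtain ⟨C, hC⟩ := Pool.Agent.Helper59K9.Cor.sub_cells m M N f (fun k => (sub_iff _).1 (hf k)) Q hε
  exact ⟨C, fun F ψ φ hF hψ h => hC F ψ φ hF (fun k => (hψ k).aut) h⟩

/-- If in each cell, outside of neighbourhoods of the geodesics, all functions but one (which may
depend on the cell) have small oscillation, then the equation is solvable, with uniform bounds. -/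
theorem one_per_cell (m N L : ℕ) (p : Fin L → V m) (hp : ∀ k, ‖p k‖ = 1)
    (r : Fin L → V m → ℝ → ℝ) (hr : ∀ k q ε, 0 < ε → 0 < r k q ε) (δ ε s : ℝ) (hδ : 0 < δ)
    (hε : 0 < ε) (hs : 0 < s) :
    ∃ C : ℝ, ∀ (F : Fin N → V m → ℂ) (ψ φ : Fin L → V m → V m) (v : Fin L → V m → ℂ),
    (∀ j, HolB (F j)) → (∀ z ∈ ball (0 : V m) 1, δ ≤ ∑ j, ‖F j z‖) →
    (∀ k, IsAut (ψ k) (φ k)) → (∀ k, HolB (v k) ∧ ScaledContWith (p k) (r k) (v k)) →
    (∀ z₀ ∈ ball (0 : V m) 1, (∀ k, FarFrom (p k) s (ψ k z₀)) → ∃ j₀, ∀ j, j ≠ j₀ →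
      ∀ z ∈ ball (0 : V m) 1, (∀ k, ‖v k (ψ k z) - v k (ψ k z₀)‖ < ε) →
      (∀ k, FarFrom (p k) s (ψ k z)) → ‖F j z - F j z₀‖ ≤ δ / (4 * N)) →
    Solvable (ball 0 1) F C := by
  obtain ⟨C, hC⟩ := Pool.Agent.Helper59K9.Cor.osc_unif m N L p hp r hr hδ hε hs
  exact ⟨C, fun F ψ φ v hF hlow hψ hv h => hC F ψ φ v hF hlow (fun k => (hψ k).aut) hv h⟩

/-- Corona theorem for the data `H_k(τ_k(ψ_k(z)))`, `τ_k(z) = ⟨p_k, z⟩ p_k + t_k (z - ⟨p_k, z⟩ p_k)`,
`t_k < 1`, with arbitrary bounded holomorphic `H_k` and arbitrary automorphisms `ψ_k`, and one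
arbitrary function `G`, with uniform bounds. -/
theorem near_geodesic_functions (m N : ℕ) (p : Fin N → V m) (hp : ∀ k, ‖p k‖ = 1)
    (t : Fin N → ℝ) (ht0 : ∀ k, 0 ≤ t k) (ht1 : ∀ k, t k < 1) (δ : ℝ) (hδ : 0 < δ) :
    ∃ C : ℝ, ∀ (ψ φ : Fin N → V m → V m) (H : Fin N → V m → ℂ) (G : V m → ℂ),
    (∀ k, IsAut (ψ k) (φ k)) → (∀ k, HolB (H k)) → HolB G →
    (∀ z ∈ ball (0 : V m) 1, δ ≤ ∑ k, ‖H k ((inner ℂ (p k) (ψ k z) : ℂ) • p k +
      (t k : ℂ) • (ψ k z - (inner ℂ (p k) (ψ k z) : ℂ) • p k))‖ + ‖G z‖) →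
    ∃ (g : Fin N → V m → ℂ) (g₀ : V m → ℂ), (∀ k, DifferentiableOn ℂ (g k) (ball 0 1)) ∧
      DifferentiableOn ℂ g₀ (ball 0 1) ∧ (∀ k, ∀ z ∈ ball (0 : V m) 1, ‖g k z‖ ≤ C) ∧
      (∀ z ∈ ball (0 : V m) 1, ‖g₀ z‖ ≤ C) ∧
      ∀ z ∈ ball (0 : V m) 1, ∑ k, H k ((inner ℂ (p k) (ψ k z) : ℂ) • p k +
        (t k : ℂ) • (ψ k z - (inner ℂ (p k) (ψ k z) : ℂ) • p k)) * g k z + G z * g₀ z = 1 := by
  choose r hr hH using fun k => Pool.Agent.Helper59K9.Cor.exists_mod (hp k) (ht0 k) (ht1 k)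
  obtain ⟨C, hC⟩ := Pool.Agent.Helper59K9.Cor.corona_unif m N p hp r hr hδ
  exact ⟨C, fun ψ φ H G hψ hHB hG hlow => hC ψ φ
    (fun k z => H k (Pool.Agent.W732.Cor.tau (p k) (t k) z)) G (fun k => (hψ k).aut)
    (fun k => hH k (H k) (hHB k)) hG hlow⟩

/-- The subordinate functions form a uniformly closed algebra which is invariant under
automorphisms and contains the ball algebra, the functions of `⟨p, z⟩`, and the functions
`H(⟨p, z⟩ p + t (z - ⟨p, z⟩ p))` with `t < 1`. -/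
theorem subordinate_algebra (m : ℕ) :
    (∀ u : V m → ℂ, Generator u → Subordinate u) ∧
    (∀ c : ℂ, Subordinate (fun _ : V m => c)) ∧
    (∀ f g : V m → ℂ, Subordinate f → Subordinate g → Subordinate (fun z => f z + g z)) ∧
    (∀ f g : V m → ℂ, Subordinate f → Subordinate g → Subordinate (fun z => f z * g z)) ∧
    (∀ f : V m → ℂ, DifferentiableOn ℂ f (ball 0 1) →
      (∀ ε : ℝ, 0 < ε → ∃ g : V m → ℂ, Subordinate g ∧
        ∀ z ∈ ball (0 : V m) 1, ‖f z - g z‖ ≤ ε) → Subordinate f) ∧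
    (∀ (f : V m → ℂ) (θ θ' : V m → V m), Subordinate f → IsAut θ θ' →
      Subordinate (fun z => f (θ z))) ∧
    (∀ f : V m → ℂ, DifferentiableOn ℂ f (ball 0 1) → ContinuousOn f (closedBall 0 1) →
      Subordinate f) ∧
    (∀ (p : V m) (h : ℂ → ℂ) (M : ℝ), ‖p‖ = 1 → DifferentiableOn ℂ h (ball 0 1) →
      (∀ x ∈ ball (0 : ℂ) 1, ‖h x‖ ≤ M) → Subordinate (fun z : V m => h (inner ℂ p z))) ∧
    (∀ (p : V m) (t : ℝ) (H : V m → ℂ) (M : ℝ), ‖p‖ = 1 → 0 ≤ t → t < 1 →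
      DifferentiableOn ℂ H (ball 0 1) → (∀ z ∈ ball (0 : V m) 1, ‖H z‖ ≤ M) →
      Subordinate (fun z : V m => H ((inner ℂ p z : ℂ) • p +
        (t : ℂ) • (z - (inner ℂ p z : ℂ) • p)))) := by
  simp only [sub_iff, gen_iff]
  exact ⟨fun u hu => Sbd.of_gen hu, fun c => Sbd.const c, fun f g hf hg => hf.add hg,
    fun f g hf hg => hf.mul hg, fun f hd h => Sbd.limit hd h,
    fun f θ θ' hf hθ => hf.comp hθ.aut, fun f hd hc => Sbd.cont hd hc,
    fun p h M hp hd hM => Sbd.of_gen (Pool.Agent.Helper59K9.Cor.gen_inner_comp hp hd hM),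
    fun p t H M hp ht0 ht1 hd hM =>
      Sbd.of_gen (Pool.Agent.Helper59K9.Cor.gen_tau hp ht0 ht1 hd hM)⟩

end Pool.Agent.Results.MP_ca0fc2_an.NearGeodesicCells
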