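import Mathlib
import Pool.Agent.Helper85K9.SC.Lin

/-!
# The corona problem on strictly convex domains of `ℂ²` is local with respect to functions of the
supporting functionals

`D` is a bounded strictly convex domain of `ℂ²` with `C²` boundary; `H^∞` functions are bounded by
`1`. A linear functional `α` supports `D` at the boundary point `p` if `α(p) ∉ α(D)`. Given functions
`f_1, …, f_L ∈ H^∞(α(D))`, the cell of `z₀` near `p` consists of the points `z` of `D` with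
`‖z - p‖ < r` and `|f_l(α(z)) - f_l(α(z₀))| < ε` for all `l`.

`result`, first part: let the functional `α_p` support `D` at `p`, for each boundary point `p`. If the
Bezout equation for arbitrary corona data `F` on `D` has, near each boundary point `p`, solutions
bounded by `Q(p)` on the cells of some functions `f_l ∘ α_p`, then it has solutions on `D` with a bound
independent of `F` and of the `f_l`. No compatibility of the solutions on different cells is
required.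

Second part: the same with the cells `{z ∈ D : |f_l(α_l z) - f_l(α_l z₀)| < ε for all l}` of functions
of finitely many fixed linear functionals `α_l`.

Third part: the first part applies in particular if on each of these cells the `F_j` are, up to `η`, polynomials of
degree less than `K(p)` in one function `G ∈ H^∞(cell)`, which is arbitrary and may depend on the cell;
`η > 0` depends on `N`, `δ`, the degree and the size of the coefficients only.

Fourth part: the corona theorem holds on `D`, with uniform bounds, for all data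
`F_j(z) = ∑_{k<K} A_{jk}(z, f_1(α_1 z), …, f_L(α_L z)) G(z)^k` where the `α_l` are fixed linear
functionals, `f_l ∈ H^∞(α_l(D))` and `G ∈ H^∞(D)` are arbitrary, and `A_{jk}` are continuous functions
of `(z, u)` with a given modulus of continuity. For example for data
`f_1(α_1 z), …, f_L(α_L z), G(z)` in finitely many different directions.

Proof. Localisation theorem for one functional `α` and arbitrary tuples `G`
(`Pool.Agent.Helper85K9.SC.one_linY`): solutions for `G` on `{|f_i(α z)| < ε}` give solutions for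
`f_i ∘ α`, `G` on `D`; it uses the bounded extension operators from the slices `{α = c}` and the
solution operator of P. Jones type of the starting library, here for functions which are given over
an open part of the base (`extY`, `siegelY`, `base_thmY`). If there were no common bound in the first
part, a character `χ` of the Banach algebra of bounded families (`HF`) would annihilate all `F_j`. It
lies over a point `p` of the closure of `D` (`pt_ex`). A boundary point `p` is excluded by the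
localisation theorem for `α_p - α_p(p)` and `(f_l ∘ α_p - χ(f_l ∘ α_p)) / 2`, since `{|α_p - α_p(p)| < η}`
shrinks to `p` by strict convexity (`supp_near`); an interior point by the localisation theorem for
`z_1 - p_1` and the data `z_2 - p_2`, `F_j` (`int_bez`). Second and fourth part:
functionals supporting `D` at `p` are multiples of each other (`supp_eq`), and the functions of the
other functionals are equicontinuous near `p`. Third part: a compactness argument for tuples of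
polynomials (`poly_all`).
-/

set_option autoImplicit false

open Metric Set

namespace Pool.Agent.Results.MP_ca0fc2_an.StrictlyConvexCells

/-- `D` is a bounded convex domain `{ρ < 0}`, where `ρ` is of class `C²` near the closure of `D` and
has positive definite real Hessian at all points of the closure of `D`. -/
def IsStrictlyConvex (D : Set (ℂ × ℂ)) : Prop :=
  Convex ℝ D ∧ Bornology.IsBounded D ∧ ∃ (O : Set (ℂ × ℂ)) (ρ : ℂ × ℂ → ℝ),
    IsOpen O ∧ closure D ⊆ O ∧ ContDiffOn ℝ 2 ρ O ∧ D = {p | p ∈ O ∧ ρ p < 0} ∧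
    ∀ p ∈ closure D, ∀ v : ℂ × ℂ, v ≠ 0 → 0 < fderiv ℝ (fderiv ℝ ρ) p v v

/-- Holomorphic on `S` and bounded by `1`. -/
def UnitBounded {E : Type} [NormedAddCommGroup E] [NormedSpace ℂ E] (S : Set E) (f : E → ℂ) :
    Prop :=
  DifferentiableOn ℂ f S ∧ ∀ z ∈ S, ‖f z‖ ≤ 1

/-- The functions `F_j` are holomorphic on `D`, `|F_j| ≤ 1` and `∑ |F_j| ≥ δ`. -/
def CoronaData {N : ℕ} (D : Set (ℂ × ℂ)) (δ : ℝ) (F : Fin N → ℂ × ℂ → ℂ) : Prop :=
  (∀ j, UnitBounded D (F j)) ∧ ∀ z ∈ D, δ ≤ ∑ j, ‖F j z‖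

/-- The equation `∑ F_j g_j = 1` has a solution with `g_j` holomorphic on `S` and bounded by `C`. -/
def Solvable {N : ℕ} (S : Set (ℂ × ℂ)) (F : Fin N → ℂ × ℂ → ℂ) (C : ℝ) : Prop :=
  ∃ g : Fin N → ℂ × ℂ → ℂ, (∀ j, DifferentiableOn ℂ (g j) S) ∧ (∀ j, ∀ z ∈ S, ‖g j z‖ ≤ C) ∧
    ∀ z ∈ S, ∑ j, F j z * g j z = 1

/-- For each boundary point `p`, the linear functional `α p` supports `D` at `p`. -/
def Supporting (D : Set (ℂ × ℂ)) (α : ℂ × ℂ → (ℂ × ℂ →L[ℂ] ℂ)) : Prop :=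
  ∀ p ∈ frontier D, α p p ∉ α p '' D

/-- The cell of `z₀` in the part of `D` near the boundary point `p`. -/
def Cell {L : ℕ} (D : Set (ℂ × ℂ)) (α : ℂ × ℂ →L[ℂ] ℂ) (p : ℂ × ℂ) (r : ℝ) (f : Fin L → ℂ → ℂ)
    (ε : ℝ) (z₀ : ℂ × ℂ) : Set (ℂ × ℂ) :=
  {z | z ∈ D ∩ ball p r ∧ ∀ l, ‖f l (α z) - f l (α z₀)‖ < ε}

/-- The functions `A_{jk}(z, f_1(α_1 z), …, f_L(α_L z))`. -/
noncomputable def coef {L : ℕ} (α : Fin L → (ℂ × ℂ →L[ℂ] ℂ)) (f : Fin L → ℂ → ℂ)
    (A : ℂ × ℂ → (Fin L → ℂ) → ℂ) (z : ℂ × ℂ) : ℂ :=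
  A z (fun l => f l (α l z))

/-- `A` is bounded by `1` on `D` times the closed unit polydisc, with modulus of continuity `κ`. -/
def Modulus {L : ℕ} (D : Set (ℂ × ℂ)) (κ : ℝ → ℝ) (A : ℂ × ℂ → (Fin L → ℂ) → ℂ) : Prop :=
  (∀ z ∈ D, ∀ u : Fin L → ℂ, ‖u‖ ≤ 1 → ‖A z u‖ ≤ 1) ∧
    ∀ t, 0 < t → ∀ z ∈ D, ∀ z' ∈ D, ∀ u u' : Fin L → ℂ, ‖u‖ ≤ 1 → ‖u'‖ ≤ 1 →
      ‖z - z'‖ < κ t → ‖u - u'‖ < κ t → ‖A z u - A z' u'‖ ≤ t

/-- **The corona problem on strictly convex domains and functions of supporting functionals.** -/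
theorem result (N : ℕ) (δ : ℝ) (hδ : 0 < δ) :
    -- (1) localisation to cells
    (∀ D : Set (ℂ × ℂ), IsStrictlyConvex D → (∃ α, Supporting D α) ∧
      ∀ α, Supporting D α → ∀ (L : ℂ × ℂ → ℕ) (r ε Q : ℂ × ℂ → ℝ), (∀ p, 0 < r p ∧ 0 < ε p) →
      ∃ C : ℝ, ∀ F : Fin N → ℂ × ℂ → ℂ, CoronaData D δ F →
      (∀ p ∈ frontier D, ∃ f : Fin (L p) → ℂ → ℂ, (∀ l, UnitBounded (α p '' D) (f l)) ∧
        ∀ z₀ ∈ D ∩ ball p (r p), Solvable (Cell D (α p) p (r p) f (ε p) z₀) F (Q p)) →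
      Solvable D F C) ∧
    -- (2) localisation to cells of functions of finitely many linear functionals
    (∀ D : Set (ℂ × ℂ), IsStrictlyConvex D → ∀ (L : ℕ) (α : Fin L → (ℂ × ℂ →L[ℂ] ℂ)),
      (∀ l, α l ≠ 0) → ∀ ε Q : ℝ, 0 < ε → ∃ C : ℝ, ∀ (f : Fin L → ℂ → ℂ)
        (F : Fin N → ℂ × ℂ → ℂ), (∀ l, UnitBounded (α l '' D) (f l)) → CoronaData D δ F →
        (∀ z₀ ∈ D, Solvable {z | z ∈ D ∧ ∀ l, ‖f l (α l z) - f l (α l z₀)‖ < ε} F Q) →
        Solvable D F C) ∧
    -- (3) polynomials in one function on each cell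
    (∃ η : ℕ → ℝ → ℝ, (∀ K M, 0 < η K M) ∧ ∀ D : Set (ℂ × ℂ), IsStrictlyConvex D →
      ∀ α, Supporting D α → ∀ (L K : ℂ × ℂ → ℕ) (r ε M : ℂ × ℂ → ℝ), (∀ p, 0 < r p ∧ 0 < ε p) →
      ∃ C : ℝ, ∀ F : Fin N → ℂ × ℂ → ℂ, CoronaData D δ F →
      (∀ p ∈ frontier D, ∃ f : Fin (L p) → ℂ → ℂ, (∀ l, UnitBounded (α p '' D) (f l)) ∧
        ∀ z₀ ∈ D ∩ ball p (r p), ∃ (G : ℂ × ℂ → ℂ) (P : Fin N → Fin (K p) → ℂ),
          UnitBounded (Cell D (α p) p (r p) f (ε p) z₀) G ∧ (∀ j k, ‖P j k‖ ≤ M p) ∧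
          ∀ j, ∀ z ∈ Cell D (α p) p (r p) f (ε p) z₀,
            ‖F j z - ∑ k, P j k * G z ^ (k : ℕ)‖ ≤ η (K p) (M p)) →
      Solvable D F C) ∧
    -- (4) finitely many functionals and one arbitrary function
    (∀ D : Set (ℂ × ℂ), IsStrictlyConvex D → ∀ (K L : ℕ) (α : Fin L → (ℂ × ℂ →L[ℂ] ℂ)),
      (∀ l, α l ≠ 0) → ∀ κ : ℝ → ℝ, (∀ t, 0 < t → 0 < κ t) →
      ∃ C : ℝ, ∀ (f : Fin L → ℂ → ℂ) (A : Fin N → Fin K → ℂ × ℂ → (Fin L → ℂ) → ℂ)
        (G : ℂ × ℂ → ℂ), (∀ l, UnitBounded (α l '' D) (f l)) → (∀ j k, Modulus D κ (A j k)) →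
        UnitBounded D G →
        (∀ j, DifferentiableOn ℂ (fun z => ∑ k, coef α f (A j k) z * G z ^ (k : ℕ)) D) →
        (∀ z ∈ D, δ ≤ ∑ j, ‖∑ k, coef α f (A j k) z * G z ^ (k : ℕ)‖) →
        Solvable D (fun j z => ∑ k, coef α f (A j k) z * G z ^ (k : ℕ)) C) := by
  have hS : ∀ D : Set (ℂ × ℂ), IsStrictlyConvex D → ∃ O ρ, Pool.Agent.Y263.SC.StrC D O ρ := by
    rintro D ⟨hc, hb, O, ρ, hO, hcl, hC2, heq, hH⟩
    exact ⟨O, ρ, ⟨hO, hcl, hC2, heq, hb, hc, hH⟩⟩
  refine ⟨?_, ?_, ?_, ?_⟩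
  · intro D hD
    obtain ⟨O, ρ, h⟩ := hS D hD
    refine ⟨⟨Pool.Agent.Helper85K9.SC.cg ρ, fun p hp =>
      Pool.Agent.Helper85K9.SC.cg_supp h hp⟩, ?_⟩
    intro α hα L r ε Q hpos
    obtain ⟨C, hC⟩ := Pool.Agent.Helper85K9.SC.cell_sc h N hδ α hα L r ε Q hpos
    exact ⟨C, fun F hF hloc => hC F hF.1 hF.2 hloc⟩
  · intro D hD L α hα ε Q hε
    obtain ⟨O, ρ, h⟩ := hS D hD
    obtain ⟨C, hC⟩ := Pool.Agent.Helper85K9.SC.cell_lin h N L hδ α hα hε Q
    exact ⟨C, fun f F hf hF hloc => hC f F hf hF.1 hF.2 hloc⟩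
  · obtain ⟨η, hη, H⟩ := Pool.Agent.Helper85K9.SC.cell_poly N hδ
    refine ⟨η, hη, ?_⟩
    intro D hD α hα L K r ε M hpos
    obtain ⟨O, ρ, h⟩ := hS D hD
    obtain ⟨C, hC⟩ := H D O ρ h α hα L K r ε M hpos
    exact ⟨C, fun F hF hloc => hC F hF.1 hF.2 hloc⟩
  · intro D hD K L α hα κ hκ
    obtain ⟨O, ρ, h⟩ := hS D hD
    obtain ⟨C, hC⟩ := Pool.Agent.Helper85K9.SC.class_sc h N K L hδ α hα κ hκ
    exact ⟨C, fun f A G hf hA hG hd hlow => hC f A G hf hG (fun j k => (hA j k).1)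
      (fun j k => (hA j k).2) hd hlow⟩

end Pool.Agent.Results.MP_ca0fc2_an.StrictlyConvexCells
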