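import Mathlib
import Pool.Agent.Helper85K9.Cor.TouchFin

/-!
# Corona data on the ball which extend to domains touching the sphere, and one arbitrary function

`B` is the unit ball of `ℂ^m`, `mv p a` (`‖p‖ = 1`, `|a| < 1`) are the automorphisms of `B` which
translate the complex geodesic through `0` and `p`. A domain `Ω` which contains `B` surrounds `B` if
for all unit vectors `q` orthogonal to `p` the sets `mv p a (ball q r)` lie in `Ω` when `a` is near `1`
(`r` may depend on `p`, `q`): `Ω` is allowed to touch the sphere, but only on circles `{e^{iθ} p}`,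
and in the scale of the automorphisms it must be fatter than `B` at all other places. The polydisc
and all domains `{|⟨P_i, z⟩| < 1, ‖z‖² < 1 + c ∏ (1 - |⟨P_i, z⟩|²)}` (`P_i` unit vectors on different
circles) are examples.

`result`, second part: the corona theorem holds on `B`, with uniform bounds, for data which are
polynomials in one arbitrary function `G ∈ H^∞(B)` with coefficients of the form `A(z, u(z))`, where
`A ∈ H^∞(Ω × (2𝔻)^L)` and `u` consists of `L` functions of the form `f ∘ ψ` with `f ∈ H^∞(𝔻)` and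
`ψ : B → 𝔻` with affine fibres. For instance all data that consist of bounded holomorphic functions
on the polydisc and of one arbitrary bounded holomorphic function on the ball.

First part: the general principle. Arbitrary corona data have uniformly bounded solutions on `B` if
the transported data `F ∘ mv p a`, `a` near `1`, have uniformly bounded solutions on the cells, near
`q`, of finitely many functions `f ∘ ψ`.

Proof. The first part combines the cell theorem (`Pool.Agent.Helper85K9.Cor.cell_fam`), applied to the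
transported data and the function `(1 - ⟨q, z⟩) / 2` (`cell_at`), with the Whitney localisation of the
starting library at each boundary point `p` (`Pool.Agent.TH310.Cor.whit2`) and again with the cell
theorem. Second part: if there were no common bound, a character of the algebra of bounded families
would annihilate all `F_j`; if `s` is its value at `G`, then the data `F_j`, `G - s` have no common
bound either; but on the cells `A(z, u(z))` is nearly constant (`osc_prod`, Schwarz lemma on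
`ball q r × (2𝔻)^L`), and there `F_j`, `G - s` have explicit solutions (`poly_cell`).
-/

set_option autoImplicit false

open Metric Set

namespace Pool.Agent.Results.MP_ca0fc2_an.SurroundingDomains

/-- `ℂ^m` with the Euclidean norm. -/
abbrev V (m : ℕ) := EuclideanSpace ℂ (Fin m)

/-- The unit ball of `ℂ^m`. -/
abbrev B (m : ℕ) : Set (V m) := ball 0 1

/-- The inner product of `ℂ^m`, linear in the second variable. -/
noncomputable abbrev ip {m : ℕ} (p z : V m) : ℂ := inner ℂ p z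

/-- The automorphisms of the ball (`‖p‖ = 1`, `|a| < 1`) which translate the complex geodesic
through `0` and `p`: `⟨p, mv p a z⟩ = (⟨p, z⟩ + a) / (1 + conj a ⟨p, z⟩)`. -/
noncomputable def mv {m : ℕ} (p : V m) (a : ℂ) (z : V m) : V m :=
  (1 / (1 + starRingEnd ℂ a * ip p z)) •
    ((ip p z + a) • p + ((√(1 - ‖a‖ ^ 2) : ℝ) : ℂ) • (z - ip p z • p))

/-- `ψ` is a holomorphic map from the unit ball to the unit disc, and the fibre of `ψ` through any
point `z` is the part in the ball of the affine subspace `z + ker ψ'(z)`. -/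
def HasAffineFibres {m : ℕ} (ψ : V m → ℂ) : Prop :=
  DifferentiableOn ℂ ψ (B m) ∧ (∀ z ∈ B m, ‖ψ z‖ < 1) ∧
    ∀ z ∈ B m, ∀ z' ∈ B m, ψ z' = ψ z ↔ fderiv ℂ ψ z (z' - z) = 0

/-- `u = f ∘ ψ` on the ball, where `ψ` has affine fibres and `f` is holomorphic on the unit disc and
bounded by `1`. -/
def OneDimensional {m : ℕ} (u : V m → ℂ) : Prop :=
  ∃ (f : ℂ → ℂ) (ψ : V m → ℂ), HasAffineFibres ψ ∧ DifferentiableOn ℂ f (ball 0 1) ∧
    (∀ w ∈ ball (0 : ℂ) 1, ‖f w‖ ≤ 1) ∧ ∀ z ∈ B m, u z = f (ψ z)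

/-- Holomorphic on `S` and bounded by `1`. -/
def UnitBounded {E : Type} [NormedAddCommGroup E] [NormedSpace ℂ E] (S : Set E) (f : E → ℂ) :
    Prop :=
  DifferentiableOn ℂ f S ∧ ∀ z ∈ S, ‖f z‖ ≤ 1

/-- The equation `∑ F_j g_j = 1` has a solution with `g_j` holomorphic on `S` and bounded by `C`. -/
def Solvable {m N : ℕ} (S : Set (V m)) (F : Fin N → V m → ℂ) (C : ℝ) : Prop :=
  ∃ g : Fin N → V m → ℂ, (∀ j, DifferentiableOn ℂ (g j) S) ∧ (∀ j, ∀ z ∈ S, ‖g j z‖ ≤ C) ∧
    ∀ z ∈ S, ∑ j, F j z * g j z = 1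

/-- The cell of `z₀` in the part of the ball near the boundary point `q`. -/
def Cell {m L : ℕ} (q : V m) (ρ : ℝ) (u : Fin L → V m → ℂ) (ε : ℝ) (z₀ : V m) : Set (V m) :=
  {z | z ∈ B m ∩ ball q ρ ∧ ∀ l, ‖u l z - u l z₀‖ < ε}

/-- The open set `Ω` surrounds the unit ball. -/
def Surrounds {m : ℕ} (Ω : Set (V m)) : Prop :=
  IsOpen Ω ∧ B m ⊆ Ω ∧ ∀ p : V m, ‖p‖ = 1 → ∀ q : V m, ‖q‖ = 1 → ip p q = 0 →
    ∃ κ r : ℝ, 0 < κ ∧ 0 < r ∧
      ∀ a : ℂ, ‖a‖ < 1 → ‖1 - a‖ < κ → ∀ z ∈ ball q r, mv p a z ∈ Ω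

theorem OneDimensional.one {m : ℕ} {u : V m → ℂ} (h : OneDimensional u) :
    Pool.Agent.Helper85K9.Cor.One u := by
  obtain ⟨f, ψ, h1, h2, h3, h4⟩ := h
  exact ⟨f, ψ, ⟨h1.1, h1.2.2⟩, h1.2.1, h2, h3, h4⟩

/-- **Corona data which extend to a surrounding domain, and one arbitrary function.** -/
theorem result (m N : ℕ) (δ : ℝ) (hδ : 0 < δ) :
    -- (1) localisation to cells at two scales
    (∀ (L : V m → V m → ℕ) (κ ρ ε Q : V m → V m → ℝ),
      (∀ p q, 0 < κ p q ∧ 0 < ρ p q ∧ 0 < ε p q) → ∃ C : ℝ, ∀ F : Fin N → V m → ℂ,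
      (∀ j, UnitBounded (B m) (F j)) → (∀ z ∈ B m, δ ≤ ∑ j, ‖F j z‖) →
      (∀ p : V m, ‖p‖ = 1 → ∀ q : V m, ‖q‖ = 1 → ip p q = 0 →
        ∀ a : ℂ, ‖a‖ < 1 → ‖1 - a‖ < κ p q →
        ∃ u : Fin (L p q) → V m → ℂ, (∀ l, OneDimensional (u l)) ∧
          ∀ z₀ ∈ B m ∩ ball q (ρ p q),
            Solvable (Cell q (ρ p q) u (ε p q) z₀) (fun j z => F j (mv p a z)) (Q p q)) →
      Solvable (B m) F C) ∧
    -- (2) functions on surrounding domains, one-dimensional functions, one arbitrary function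
    (∀ (L D : ℕ) (Ω : Set (V m)), Surrounds Ω → ∃ C : ℝ, ∀ (u : Fin L → V m → ℂ)
      (A : Fin N → Fin D → V m × (Fin L → ℂ) → ℂ) (G : V m → ℂ), (∀ l, OneDimensional (u l)) →
      (∀ j k, UnitBounded (Ω ×ˢ ball (0 : Fin L → ℂ) 2) (A j k)) → UnitBounded (B m) G →
      (∀ z ∈ B m, δ ≤ ∑ j, ‖∑ k, A j k (z, fun l => u l z) * G z ^ (k : ℕ)‖) →
      Solvable (B m) (fun j z => ∑ k, A j k (z, fun l => u l z) * G z ^ (k : ℕ)) C) ∧
    -- (3) examples of surrounding domains
    (∀ (k : ℕ) (P : Fin k → V m) (c : ℝ), (∀ i, ‖P i‖ = 1) →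
      (∀ i j, i ≠ j → ‖ip (P i) (P j)‖ < 1) → 0 < c →
      Surrounds {z : V m | (∀ i, ‖ip (P i) z‖ < 1) ∧
        ‖z‖ ^ 2 < 1 + c * ∏ i, (1 - ‖ip (P i) z‖ ^ 2)}) ∧
    Surrounds {z : V m | ∀ i, ‖z i‖ < 1} := by
  have h3 : ∀ (k : ℕ) (P : Fin k → V m) (c : ℝ), (∀ i, ‖P i‖ = 1) →
      (∀ i j, i ≠ j → ‖(inner ℂ (P i) (P j) : ℂ)‖ < 1) → 0 < c →
      Surrounds {z : V m | (∀ i, ‖(inner ℂ (P i) z : ℂ)‖ < 1) ∧
        ‖z‖ ^ 2 < 1 + c * ∏ i, (1 - ‖(inner ℂ (P i) z : ℂ)‖ ^ 2)} := by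
    intro k P c hP hd hc
    have hcont : ∀ i, Continuous (fun z : V m => ‖(inner ℂ (P i) z : ℂ)‖) := fun i =>
      (innerSL ℂ (P i)).continuous.norm
    refine ⟨?_, fun z hz => ?_, Pool.Agent.Helper85K9.Cor.tch_Dm hP hd hc⟩
    · rw [ofPred_and]
      refine IsOpen.inter ?_ ?_
      · rw [ofPred_forall]
        exact isOpen_iInter_of_finite fun i => isOpen_lt (hcont i) continuous_const
      · refine isOpen_lt (continuous_norm.pow 2) ?_
        exact continuous_const.add (continuous_const.mul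
          (continuous_finsetProd _ fun i _ => continuous_const.sub ((hcont i).pow 2)))
    · rw [mem_ball_zero_iff] at hz
      have h1 : ∀ i, ‖(inner ℂ (P i) z : ℂ)‖ < 1 := by
        intro i
        calc ‖(inner ℂ (P i) z : ℂ)‖ ≤ ‖P i‖ * ‖z‖ := norm_inner_le_norm _ _
          _ < 1 := by rw [hP i, one_mul]; exact hz
      refine ⟨h1, ?_⟩
      have h2 : 0 < ∏ i, (1 - ‖(inner ℂ (P i) z : ℂ)‖ ^ 2) :=
        Finset.prod_pos fun i _ => by
          have := h1 i
          nlinarith [norm_nonneg (inner ℂ (P i) z : ℂ)]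
      have h4 : 0 < c * ∏ i, (1 - ‖(inner ℂ (P i) z : ℂ)‖ ^ 2) := mul_pos hc h2
      nlinarith [norm_nonneg z]
  refine ⟨?_, ?_, h3, ?_⟩
  · intro L κ ρ ε Q hpos
    obtain ⟨C, hC⟩ := Pool.Agent.Helper85K9.Cor.two_scale_fam (m := m) (N := N) (δ := δ)
      (I := {F : Fin N → V m → ℂ // (∀ j, UnitBounded (ball 0 1) (F j)) ∧
        (∀ z ∈ ball (0 : V m) 1, δ ≤ ∑ j, ‖F j z‖) ∧
        (∀ p : V m, ‖p‖ = 1 → ∀ q : V m, ‖q‖ = 1 → ip p q = 0 →
        ∀ a : ℂ, ‖a‖ < 1 → ‖1 - a‖ < κ p q →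
        ∃ u : Fin (L p q) → V m → ℂ, (∀ l, OneDimensional (u l)) ∧
          ∀ z₀ ∈ ball (0 : V m) 1 ∩ ball q (ρ p q),
            Solvable (Cell q (ρ p q) u (ε p q) z₀) (fun j z => F j (mv p a z)) (Q p q))})
      (F := fun x => x.1) (fun x j => x.2.1 j) hδ (fun x => x.2.2.1) (by
        intro p hp q hq hpq
        refine ⟨L p q, κ p q, ρ p q, ε p q, Q p q, (hpos p q).1, (hpos p q).2.1,
          (hpos p q).2.2, fun x a ha hak => ?_⟩
        obtain ⟨u, hu, h1⟩ := x.2.2.2 p hp q hq hpq a ha hak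
        exact ⟨u, fun l => (hu l).one, h1⟩)
    exact ⟨C, fun F h1 h2 h3 => hC ⟨F, h1, h2, h3⟩⟩
  · intro L D Ω hΩ
    obtain ⟨C, hC⟩ := Pool.Agent.Helper85K9.Cor.touch_main m N L D hδ hΩ.2.1 hΩ.2.2
    exact ⟨C, fun u A G hu hA hG hlow => hC u A G (fun l => (hu l).one) (fun j k => (hA j k).1)
      (fun j k => (hA j k).2) hG hlow⟩
  · have h4 := h3 m (fun i => EuclideanSpace.single i (1 : ℂ)) 1 (fun i => by simp)
      (fun i j hij => by
        rw [EuclideanSpace.inner_single_left]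
        simp [hij]) one_pos
    have hin : ∀ (z : V m) (i : Fin m),
        (inner ℂ (EuclideanSpace.single i (1 : ℂ) : V m) z : ℂ) = z i := fun z i => by
      simp [EuclideanSpace.inner_single_left]
    have hsub : {z : V m | (∀ i, ‖(inner ℂ (EuclideanSpace.single i (1 : ℂ) : V m) z : ℂ)‖ < 1) ∧
        ‖z‖ ^ 2 < 1 + 1 * ∏ i, (1 - ‖(inner ℂ (EuclideanSpace.single i (1 : ℂ) : V m) z : ℂ)‖ ^ 2)} ⊆
        {z : V m | ∀ i, ‖z i‖ < 1} := by
      intro z hz i
      have := hz.1 i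
      rwa [hin] at this
    refine ⟨?_, h4.2.1.trans hsub, Pool.Agent.Helper85K9.Cor.Tch.mono h4.2.2 hsub⟩
    rw [ofPred_forall]
    refine isOpen_iInter_of_finite fun i => isOpen_lt ?_ continuous_const
    exact (EuclideanSpace.proj (𝕜 := ℂ) i).continuous.norm

end Pool.Agent.Results.MP_ca0fc2_an.SurroundingDomains
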